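import Pool.Agent.Helper57.BG.Data
import Pool.Agent.Helper7.GPC.Div

/-!
# (A'), Type II: block P6, the exponents of the prime type II sum
-/

open Finset

namespace Pool.Agent.Helper65.AP

open Pool.Agent.Helper57.BG

/-- statement of p1 -/
def St1 : Prop := ∀ p : PD, p.Ok → ∀ a al : ℕ → ℂ, (∀ n, ‖a n‖ ≤ 1) → (∀ n, ‖al n‖ ≤ 1) →
    ‖p.S a al‖ ^ 2 ≤ 10 * p.Q1 * p.M * (p.Tb + p.Tc + ‖p.Td‖ + ‖p.Te‖)

/-- statement of p2 -/
def St2 : Prop := ∀ p : PD, p.Ok → p.Tb ≤ 2500 * p.R0 * (p.M * p.L + p.M * p.L ^ 2 / (p.Q1 * p.D0) +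
    p.Q1 * (p.Q * p.P) ^ 2 * p.L / p.D0 + (p.Q * p.P) ^ 2 * p.L ^ 2 / p.D0 ^ 2)

/-- statement of p3 -/
def St3 : Prop := ∀ p : PD, p.Ok → p.Tc ≤ 1100 * p.R0 * (p.M * p.L / p.Q1 + (p.Q * p.P) ^ 2 * p.L)

/-- statement of p4 -/
def St4 : Prop := ∀ p : PD, p.Ok → (p.H : ℝ) * |(p.k : ℝ)| ≤ p.L →
    ‖p.Td‖ ≤ 12000 * p.H * p.M * p.L * Real.sqrt (p.R0 * (1 / p.P + 1 / p.L))

/-- statement of p5 -/
def St5 : Prop := ∀ p : PD, p.Ok → (p.H : ℝ) * |(p.k : ℝ)| ≤ p.L →
    ‖p.Te‖ ≤ 16 * p.H * p.J * p.L * p.Q * (32 * p.M / (p.Q1 * (p.Q * p.P) ^ 2)) *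
      Real.sqrt (48 * p.L * p.Q * p.P * p.R0 * p.scE)

private theorem cexp {c a b u : ℝ} (hc : c ≤ Real.exp u) (h : a + u ≤ b) : c * Real.exp a ≤ Real.exp b := by
  calc c * Real.exp a ≤ Real.exp u * Real.exp a := mul_le_mul_of_nonneg_right hc (Real.exp_pos a).le
    _ = Real.exp (a + u) := by rw [← Real.exp_add, add_comm]
    _ ≤ Real.exp b := Real.exp_le_exp.2 h

/-- the logarithms -/
structure Nm (L a q p l m κ : ℝ) : Prop where
  hc : 30 ≤ L / 10000000
  hlog : 10 + L ≤ Real.exp (L / 10000000)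
  a0 : L / 100 - L / 10000000 ≤ a
  q0 : L / 100 - L / 10000000 ≤ q
  p0 : 3 / 50 * L - L / 10000000 ≤ p
  p1 : p ≤ (3 / 50 + 1 / 1000000) * L
  u0 : L / 1000 ≤ l - a
  u1 : l - a ≤ 3 / 250 * L
  l1 : l ≤ 41 / 100 * L
  w0 : L / 2 - L / 10000000 ≤ a + (q + p)
  w1 : a + (q + p) ≤ (1 / 2 + 1 / 1000000) * L
  m0 : (1 - 1 / 1000000) * L ≤ m + l
  m1 : m + l ≤ (1 + 1 / 1000000) * L
  k0 : 0 ≤ κ
  k1 : κ ≤ L / 1000000

namespace Nm

variable {L a q p l m κ : ℝ} (h : Nm L a q p l m κ)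

include h

theorem big {c : ℝ} (hc : c ≤ 1000000000) : c ≤ Real.exp (L / 10000000) := by
  have h1 : Real.exp 30 ≤ Real.exp (L / 10000000) := Real.exp_le_exp.2 h.hc
  have h2 : (2 : ℝ) ^ (30 : ℕ) ≤ Real.exp 30 := by
    have h3 : (2 : ℝ) ≤ Real.exp 1 := by
      have := Real.add_one_le_exp (1 : ℝ)
      linarith
    calc (2 : ℝ) ^ (30 : ℕ) ≤ (Real.exp 1) ^ (30 : ℕ) := pow_le_pow_left₀ (by norm_num) h3 _
      _ = Real.exp 30 := by rw [← Real.exp_nat_mul]; norm_num
  have h4 : (1000000000 : ℝ) ≤ 2 ^ (30 : ℕ) := by norm_num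
  linarith

theorem b1 : 8 * (10 * Real.exp a * Real.exp m * (2500 * Real.exp (L / 1000000) * (Real.exp m * Real.exp l))) ≤
    Real.exp ((2 - 2 / 1000000) * L) := by
  have e : 8 * (10 * Real.exp a * Real.exp m * (2500 * Real.exp (L / 1000000) * (Real.exp m * Real.exp l))) =
      200000 * Real.exp (a + m + (L / 1000000) + (m + l)) := by
    simp only [Real.exp_add]; ring
  rw [e]
  refine cexp (h.big (by norm_num)) ?_
  have := h.hc; have := h.u0; have := h.m1
  linarith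

theorem b2 : 8 * (10 * Real.exp a * Real.exp m * (2500 * Real.exp (L / 1000000) *
    (Real.exp m * Real.exp l ^ 2 / (Real.exp a * Real.exp (L / 100))))) ≤ Real.exp ((2 - 2 / 1000000) * L) := by
  have e : 8 * (10 * Real.exp a * Real.exp m * (2500 * Real.exp (L / 1000000) *
      (Real.exp m * Real.exp l ^ 2 / (Real.exp a * Real.exp (L / 100))))) =
      200000 * Real.exp (m + (L / 1000000) + (m + l + l) - L / 100) := by
    simp only [Real.exp_add, Real.exp_sub]
    field_simp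
    ring
  rw [e]
  refine cexp (h.big (by norm_num)) ?_
  have := h.hc; have := h.m1
  linarith

theorem b3 : 8 * (10 * Real.exp a * Real.exp m * (2500 * Real.exp (L / 1000000) *
    (Real.exp a * (Real.exp q * Real.exp p) ^ 2 * Real.exp l / Real.exp (L / 100)))) ≤ Real.exp ((2 - 2 / 1000000) * L) := by
  have e : 8 * (10 * Real.exp a * Real.exp m * (2500 * Real.exp (L / 1000000) *
      (Real.exp a * (Real.exp q * Real.exp p) ^ 2 * Real.exp l / Real.exp (L / 100)))) =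
      200000 * Real.exp (a + m + (L / 1000000) + (a + (q + p) + (q + p) + l) - L / 100) := by
    simp only [Real.exp_add, Real.exp_sub]; ring
  rw [e]
  refine cexp (h.big (by norm_num)) ?_
  have := h.hc; have := h.m1; have := h.w1
  linarith

theorem b4 : 8 * (10 * Real.exp a * Real.exp m * (2500 * Real.exp (L / 1000000) *
    ((Real.exp q * Real.exp p) ^ 2 * Real.exp l ^ 2 / Real.exp (L / 100) ^ 2))) ≤ Real.exp ((2 - 2 / 1000000) * L) := by
  have e : 8 * (10 * Real.exp a * Real.exp m * (2500 * Real.exp (L / 1000000) *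
      ((Real.exp q * Real.exp p) ^ 2 * Real.exp l ^ 2 / Real.exp (L / 100) ^ 2))) =
      200000 * Real.exp (a + m + (L / 1000000) + ((q + p) + (q + p) + l + l) - L / 100 - L / 100) := by
    simp only [Real.exp_add, Real.exp_sub]; ring
  rw [e]
  refine cexp (h.big (by norm_num)) ?_
  have := h.hc; have := h.m1; have := h.w1; have := h.u1
  linarith

theorem c1 : 8 * (10 * Real.exp a * Real.exp m * (1100 * Real.exp (L / 1000000) * (Real.exp m * Real.exp l / Real.exp a))) ≤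
    Real.exp ((2 - 2 / 1000000) * L) := by
  have e : 8 * (10 * Real.exp a * Real.exp m * (1100 * Real.exp (L / 1000000) * (Real.exp m * Real.exp l / Real.exp a))) =
      88000 * Real.exp (m + (L / 1000000) + (m + l)) := by
    simp only [Real.exp_add]
    field_simp
    ring
  rw [e]
  refine cexp (h.big (by norm_num)) ?_
  have := h.hc; have := h.u0; have := h.m1; have := h.a0
  linarith

theorem c2 : 8 * (10 * Real.exp a * Real.exp m * (1100 * Real.exp (L / 1000000) * ((Real.exp q * Real.exp p) ^ 2 * Real.exp l))) ≤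
    Real.exp ((2 - 2 / 1000000) * L) := by
  have e : 8 * (10 * Real.exp a * Real.exp m * (1100 * Real.exp (L / 1000000) * ((Real.exp q * Real.exp p) ^ 2 * Real.exp l))) =
      88000 * Real.exp (a + m + (L / 1000000) + ((q + p) + (q + p) + l)) := by
    simp only [Real.exp_add]; ring
  rw [e]
  refine cexp (h.big (by norm_num)) ?_
  have := h.hc; have := h.w1; have := h.m1; have := h.a0
  linarith

theorem hH : 4 * Real.exp a * (Real.exp q * Real.exp p) ^ 2 / Real.exp m + 1 ≤ Real.exp (l - a + 31 / 10000000 * L) := by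
  have e : 4 * Real.exp a * (Real.exp q * Real.exp p) ^ 2 / Real.exp m = 4 * Real.exp (a + (q + p + (q + p)) - m) := by
    simp only [Real.exp_add, Real.exp_sub]; ring
  rw [e]
  have h1 : Real.exp (a + (q + p + (q + p)) - m) ≤ Real.exp (l - a + 30 / 10000000 * L) := by
    refine Real.exp_le_exp.2 ?_
    have := h.w1; have := h.m0
    linarith
  have h2 : 1 ≤ Real.exp (l - a + 30 / 10000000 * L) := by
    refine Real.one_le_exp ?_
    have := h.u0; have := h.hc
    linarith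
  have h3 : 5 * Real.exp (l - a + 30 / 10000000 * L) ≤ Real.exp (l - a + 31 / 10000000 * L) := by
    refine cexp (h.big (by norm_num)) ?_
    linarith
  linarith

theorem sq : Real.sqrt (Real.exp (L / 1000000) * (1 / Real.exp p + 1 / Real.exp l)) ≤ Real.exp (-(54 / 10000) * L) := by
  rw [Real.sqrt_le_left (Real.exp_pos _).le]
  have e2 : (Real.exp (-(54 / 10000) * L)) ^ 2 = Real.exp (-(108 / 10000) * L) := by
    rw [← Real.exp_nat_mul]; congr 1; push_cast; ring
  have hc := h.hc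
  have h1 : 1 / Real.exp p ≤ Real.exp (-(109 / 10000) * L) := by
    rw [one_div, ← Real.exp_neg]
    refine Real.exp_le_exp.2 ?_
    have := h.p0
    linarith
  have h2 : 1 / Real.exp l ≤ Real.exp (-(109 / 10000) * L) := by
    rw [one_div, ← Real.exp_neg]
    refine Real.exp_le_exp.2 ?_
    have := h.a0; have := h.u0
    linarith
  rw [e2]
  calc Real.exp (L / 1000000) * (1 / Real.exp p + 1 / Real.exp l) ≤
      Real.exp (L / 1000000) * (Real.exp (-(109 / 10000) * L) + Real.exp (-(109 / 10000) * L)) := by gcongr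
    _ = 2 * Real.exp (L / 1000000 + -(109 / 10000) * L) := by rw [Real.exp_add]; ring
    _ ≤ Real.exp (-(108 / 10000) * L) := by
        refine cexp (h.big (by norm_num)) ?_
        linarith

theorem d1 (H : ℝ) (_hH0 : 0 ≤ H) (hH : H ≤ Real.exp (l - a + 31 / 10000000 * L)) :
    8 * (10 * Real.exp a * Real.exp m * (12000 * H * Real.exp m * Real.exp l *
      Real.sqrt (Real.exp (L / 1000000) * (1 / Real.exp p + 1 / Real.exp l)))) ≤ Real.exp ((2 - 2 / 1000000) * L) := by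
  have h0 := h.sq
  calc 8 * (10 * Real.exp a * Real.exp m * (12000 * H * Real.exp m * Real.exp l *
      Real.sqrt (Real.exp (L / 1000000) * (1 / Real.exp p + 1 / Real.exp l)))) ≤
        8 * (10 * Real.exp a * Real.exp m * (12000 * Real.exp (l - a + 31 / 10000000 * L) * Real.exp m * Real.exp l *
      Real.exp (-(54 / 10000) * L))) := by gcongr
    _ = 960000 * Real.exp (a + m + (l - a + 31 / 10000000 * L) + m + l + -(54 / 10000) * L) := by
        rw [Real.exp_add _ (-(54 / 10000) * L), Real.exp_add _ l, Real.exp_add _ m, Real.exp_add (a + m), Real.exp_add a m]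
        ring
    _ ≤ Real.exp ((2 - 2 / 1000000) * L) := by
        refine cexp (h.big (by norm_num)) ?_
        have := h.hc; have := h.m1
        linarith

/-- the second Cauchy inequality -/
theorem sc (H J : ℝ) (hH0 : 0 ≤ H) (hJ0 : 0 ≤ J) (hH : H ≤ Real.exp (l - a + 31 / 10000000 * L))
    (hJ : J ≤ Real.exp (l - a)) :
    2 * Real.exp p * (8 * Real.exp l * Real.exp q * Real.exp p + 1) + 4 * Real.exp p ^ 2 *
    ((8 / Real.exp p + 1) * (H * J * Real.exp κ * Real.exp p) +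
    2 ^ (7 + 4) * (16 * Real.exp l * Real.exp q * Real.exp p ^ 2) ^ (3 / 4 : ℝ) * (H * J * Real.exp κ * Real.exp p) ^ (1 / 4 : ℝ) *
      (1 + Real.log (16 * Real.exp l * Real.exp q * Real.exp p ^ 2))) ≤
    18 * Real.exp (p + (l + q + p)) + 36 * Real.exp (p + p + (l - a + 31 / 10000000 * L + (l - a) + κ + p)) +
      131072 * Real.exp (L / 10000000 + (p + p) + 3 / 4 * (l + q + p + p) + 1 / 4 * (l - a + 31 / 10000000 * L + (l - a) + κ + p)) := by
  have hc := h.hc
  have ha0 := h.a0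
  have hq0 := h.q0
  have hp := h.p0
  have hp1 := h.p1
  have hu0 := h.u0
  have hu1 := h.u1
  have hw0 := h.w0
  have hw1 := h.w1
  have hk0 := h.k0
  have hk1 := h.k1
  set A : ℝ := l - a + 31 / 10000000 * L + (l - a) + κ + p with hA
  have hB : H * J * Real.exp κ * Real.exp p ≤ Real.exp A := by
    rw [hA, Real.exp_add, Real.exp_add, Real.exp_add _ (l - a)]
    gcongr
  have hB0 : 0 ≤ H * J * Real.exp κ * Real.exp p := by positivity
  have t1 : 2 * Real.exp p * (8 * Real.exp l * Real.exp q * Real.exp p + 1) ≤ 18 * Real.exp (p + (l + q + p)) := by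
    have e : 8 * Real.exp l * Real.exp q * Real.exp p = 8 * Real.exp (l + q + p) := by
      simp only [Real.exp_add]; ring
    have h1 : 1 ≤ Real.exp (l + q + p) := Real.one_le_exp (by linarith)
    rw [e, Real.exp_add p]
    nlinarith [Real.exp_pos p]
  have t2 : (8 / Real.exp p + 1) * (H * J * Real.exp κ * Real.exp p) ≤ 9 * Real.exp A := by
    refine mul_le_mul ?_ hB hB0 (by norm_num)
    have h1 : 1 ≤ Real.exp p := Real.one_le_exp (by linarith)
    have h2 : 8 / Real.exp p ≤ 8 := div_le_self (by norm_num) h1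
    linarith
  have e8 : 16 * Real.exp l * Real.exp q * Real.exp p ^ 2 = 16 * Real.exp (l + q + p + p) := by
    simp only [Real.exp_add]; ring
  have t3 : (16 * Real.exp l * Real.exp q * Real.exp p ^ 2) ^ (3 / 4 : ℝ) ≤ 16 * Real.exp (3 / 4 * (l + q + p + p)) := by
    rw [e8, Real.mul_rpow (by norm_num) (Real.exp_pos _).le, ← Real.exp_mul, mul_comm (l + q + p + p) (3 / 4 : ℝ)]
    refine mul_le_mul_of_nonneg_right ?_ (Real.exp_pos _).le
    calc (16 : ℝ) ^ (3 / 4 : ℝ) ≤ (16 : ℝ) ^ (1 : ℝ) := Real.rpow_le_rpow_of_exponent_le (by norm_num) (by norm_num)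
      _ = 16 := Real.rpow_one 16
  have t4 : (H * J * Real.exp κ * Real.exp p) ^ (1 / 4 : ℝ) ≤ Real.exp (1 / 4 * A) := by
    calc (H * J * Real.exp κ * Real.exp p) ^ (1 / 4 : ℝ) ≤ (Real.exp A) ^ (1 / 4 : ℝ) :=
          Real.rpow_le_rpow hB0 hB (by norm_num)
      _ = Real.exp (1 / 4 * A) := by rw [← Real.exp_mul, mul_comm]
  have hl8 : Real.log 16 ≤ 4 := by
    have h2 : Real.log 16 = 4 * Real.log 2 := by
      rw [show (16 : ℝ) = 2 ^ 4 by norm_num, Real.log_pow]
      norm_num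
    have h3 : Real.log 2 ≤ 1 := by
      have := Real.log_le_sub_one_of_pos (show (0 : ℝ) < 2 by norm_num)
      linarith
    linarith
  have t5 : 1 + Real.log (16 * Real.exp l * Real.exp q * Real.exp p ^ 2) ≤ Real.exp (L / 10000000) := by
    rw [e8, Real.log_mul (by norm_num) (Real.exp_pos _).ne', Real.log_exp]
    have := h.hlog
    linarith
  have t50 : 0 ≤ 1 + Real.log (16 * Real.exp l * Real.exp q * Real.exp p ^ 2) := by
    rw [e8, Real.log_mul (by norm_num) (Real.exp_pos _).ne', Real.log_exp]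
    have : 0 ≤ Real.log 16 := Real.log_nonneg (by norm_num)
    linarith
  have t6 : 2 ^ (7 + 4) * (16 * Real.exp l * Real.exp q * Real.exp p ^ 2) ^ (3 / 4 : ℝ) * (H * J * Real.exp κ * Real.exp p) ^ (1 / 4 : ℝ) *
      (1 + Real.log (16 * Real.exp l * Real.exp q * Real.exp p ^ 2)) ≤
      2 ^ (7 + 4) * (16 * Real.exp (3 / 4 * (l + q + p + p))) * Real.exp (1 / 4 * A) * Real.exp (L / 10000000) := by
    refine mul_le_mul ?_ t5 t50 (by positivity)
    refine mul_le_mul ?_ t4 (Real.rpow_nonneg hB0 _) (by positivity)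
    exact mul_le_mul_of_nonneg_left t3 (by norm_num)
  have e5 : 36 * Real.exp (p + p + A) = 4 * Real.exp p ^ 2 * (9 * Real.exp A) := by
    simp only [Real.exp_add]; ring
  have e6 : 131072 * Real.exp (L / 10000000 + (p + p) + 3 / 4 * (l + q + p + p) + 1 / 4 * A) =
      4 * Real.exp p ^ 2 * (2 ^ (7 + 4) * (16 * Real.exp (3 / 4 * (l + q + p + p))) * Real.exp (1 / 4 * A) * Real.exp (L / 10000000)) := by
    rw [Real.exp_add, Real.exp_add, Real.exp_add, Real.exp_add]
    ring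
  rw [e5, e6, mul_add (4 * Real.exp p ^ 2)]
  have hpos : 0 ≤ 4 * Real.exp p ^ 2 := by positivity
  have u1 := mul_le_mul_of_nonneg_left t2 hpos
  have u2 := mul_le_mul_of_nonneg_left t6 hpos
  linarith

theorem e1 (H J s : ℝ) (_hH0 : 0 ≤ H) (_hJ0 : 0 ≤ J) (hH : H ≤ Real.exp (l - a + 31 / 10000000 * L))
    (hJ : J ≤ Real.exp (l - a))
    (hs : s ≤ 18 * Real.exp (p + (l + q + p)) + 36 * Real.exp (p + p + (l - a + 31 / 10000000 * L + (l - a) + κ + p)) +
      131072 * Real.exp (L / 10000000 + (p + p) + 3 / 4 * (l + q + p + p) + 1 / 4 * (l - a + 31 / 10000000 * L + (l - a) + κ + p))) :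
    8 * (10 * Real.exp a * Real.exp m * (16 * H * J * Real.exp l * Real.exp q *
      (32 * Real.exp m / (Real.exp a * (Real.exp q * Real.exp p) ^ 2)) *
      Real.sqrt (48 * Real.exp l * Real.exp q * Real.exp p * Real.exp (L / 1000000) * s))) ≤ Real.exp ((2 - 2 / 1000000) * L) := by
  have hc := h.hc
  have ha0 := h.a0
  have hq0 := h.q0
  have hp := h.p0
  have hp1 := h.p1
  have hu0 := h.u0
  have hu1 := h.u1
  have hw0 := h.w0
  have hw1 := h.w1
  have hk0 := h.k0
  have hk1 := h.k1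
  have hm0 := h.m0
  have hm1 := h.m1
  set A : ℝ := a + m + (l - a + 31 / 10000000 * L) + (l - a) + l + q + m - a - (q + p) - (q + p) with hA
  set g : ℝ := (2 - 2 / 1000000) * L - A - L / 10000000 with hg
  have e1 : 48 * Real.exp l * Real.exp q * Real.exp p * Real.exp (L / 1000000) * s =
      48 * Real.exp (l + q + p + L / 1000000) * s := by
    simp only [Real.exp_add]; ring
  have hs1 : Real.sqrt (48 * Real.exp l * Real.exp q * Real.exp p * Real.exp (L / 1000000) * s) ≤ Real.exp g := by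
    rw [Real.sqrt_le_left (Real.exp_pos g).le, e1]
    have e2 : (Real.exp g) ^ 2 = Real.exp (g + g) := by rw [Real.exp_add]; ring
    rw [e2]
    have b1 : 2592 * Real.exp (l + q + p + L / 1000000 + (p + (l + q + p))) ≤ Real.exp (g + g) := by
      refine cexp (h.big (by norm_num)) ?_
      rw [hg, hA]
      linarith
    have b2 : 5184 * Real.exp (l + q + p + L / 1000000 + (p + p + (l - a + 31 / 10000000 * L + (l - a) + κ + p))) ≤ Real.exp (g + g) := by
      refine cexp (h.big (by norm_num)) ?_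
      rw [hg, hA]
      linarith
    have b3 : 18874368 * Real.exp (l + q + p + L / 1000000 + (L / 10000000 + (p + p) + 3 / 4 * (l + q + p + p) +
        1 / 4 * (l - a + 31 / 10000000 * L + (l - a) + κ + p))) ≤ Real.exp (g + g) := by
      refine cexp (h.big (by norm_num)) ?_
      rw [hg, hA]
      linarith
    rw [Real.exp_add (l + q + p + L / 1000000)] at b1 b2 b3
    have b4 := mul_le_mul_of_nonneg_left hs (show 0 ≤ 48 * Real.exp (l + q + p + L / 1000000) by positivity)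
    linarith
  have e3 : 8 * (10 * Real.exp a * Real.exp m * (16 * Real.exp (l - a + 31 / 10000000 * L) * Real.exp (l - a) * Real.exp l * Real.exp q *
      (32 * Real.exp m / (Real.exp a * (Real.exp q * Real.exp p) ^ 2)) *
      Real.exp g)) = 40960 * Real.exp (A + g) := by
    rw [Real.exp_add A g, hA]
    simp only [Real.exp_add, Real.exp_sub]
    field_simp
    ring
  calc 8 * (10 * Real.exp a * Real.exp m * (16 * H * J * Real.exp l * Real.exp q *
      (32 * Real.exp m / (Real.exp a * (Real.exp q * Real.exp p) ^ 2)) *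
      Real.sqrt (48 * Real.exp l * Real.exp q * Real.exp p * Real.exp (L / 1000000) * s))) ≤
        8 * (10 * Real.exp a * Real.exp m * (16 * Real.exp (l - a + 31 / 10000000 * L) * Real.exp (l - a) * Real.exp l * Real.exp q *
      (32 * Real.exp m / (Real.exp a * (Real.exp q * Real.exp p) ^ 2)) *
      Real.exp g)) := by gcongr
    _ = 40960 * Real.exp (A + g) := e3
    _ ≤ Real.exp ((2 - 2 / 1000000) * L) := by
        refine cexp (h.big (by norm_num)) ?_
        rw [hg]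
        linarith

end Nm

/-- the divisor bound -/
theorem divP : ∃ L0 : ℝ, ∀ L : ℝ, L0 ≤ L → ∀ a q p l : ℝ, l ≤ 41 / 100 * L → a + (q + p) ≤ (1 / 2 + 1 / 1000000) * L →
    30 ≤ L / 10000000 → ∀ n : ℕ, 1 ≤ n → (n : ℝ) ≤ 16 * Real.exp l * (Real.exp a * Real.exp q * Real.exp p) →
      (n.divisors.card : ℝ) ≤ Real.exp (L / 1000000) := by
  obtain ⟨C, hC1, hC⟩ := Pool.Agent.Helper7.GPC.card_divisors_le (ε := 1 / 2000000) (by norm_num)
  refine ⟨10000000 * Real.log C, fun L hL a q p l hl hw hc n hn1 hn => ?_⟩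
  have h1 : C ≤ Real.exp (L / 10000000) := by
    rw [← Real.log_le_iff_le_exp (by linarith)]
    linarith
  have h2 : (n : ℝ) ≤ Real.exp L := by
    refine hn.trans ?_
    have e : 16 * Real.exp l * (Real.exp a * Real.exp q * Real.exp p) = 16 * Real.exp (l + (a + (q + p))) := by
      simp only [Real.exp_add]; ring
    rw [e]
    have h16 : (16 : ℝ) ≤ Real.exp 15 := by
      have := Real.add_one_le_exp (15 : ℝ)
      linarith
    refine cexp h16 ?_
    linarith
  have hn0 : (0 : ℝ) ≤ n := Nat.cast_nonneg n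
  calc (n.divisors.card : ℝ) ≤ C * (n : ℝ) ^ (1 / 2000000 : ℝ) := hC n (by omega)
    _ ≤ Real.exp (L / 10000000) * (Real.exp L) ^ (1 / 2000000 : ℝ) := by
        refine mul_le_mul h1 (Real.rpow_le_rpow hn0 h2 (by norm_num)) (Real.rpow_nonneg hn0 _) (Real.exp_pos _).le
    _ = Real.exp (L / 10000000 + L * (1 / 2000000)) := by rw [← Real.exp_mul, ← Real.exp_add]
    _ ≤ Real.exp (L / 1000000) := Real.exp_le_exp.2 (by linarith)

/-- **P6.** exponents. D = 1/100, rho1 = 1/1000, rho2 = 3/250, c1 = delta = 10^-6 -/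
theorem TIIP_of (t1 : St1) (t2 : St2) (t3 : St3) (t4 : St4) (t5 : St5) :
    ∃ T0 : ℝ, 1 ≤ T0 ∧ ∀ T ≥ T0, ∀ (k : ℤ) (Q1 Q P L M : ℝ) (QQ W LL : Finset ℕ)
    (a al b lam be : ℕ → ℂ), k ≠ 0 → |(k : ℝ)| ≤ T ^ (1 / 1000000 : ℝ) →
    T ^ (1 / 100 : ℝ) / 2 ≤ Q1 → T ^ (1 / 100 : ℝ) / 2 ≤ Q →
    T ^ (3 / 50 : ℝ) / 2 ≤ P → P ≤ T ^ (3 / 50 + 1 / 1000000 : ℝ) →
    T ^ (1 / 1000 : ℝ) ≤ L / Q1 → L / Q1 ≤ T ^ (3 / 250 : ℝ) → L ≤ T ^ (41 / 100 : ℝ) →
    T ^ (1 / 2 : ℝ) / 8 ≤ Q1 * Q * P → Q1 * Q * P ≤ T ^ (1 / 2 + 1 / 1000000 : ℝ) →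
    T ^ (1 - 1 / 1000000 : ℝ) ≤ M * L → M * L ≤ T ^ (1 + 1 / 1000000 : ℝ) →
    (∀ q ∈ QQ, Squarefree q ∧ Q < q ∧ (q : ℝ) ≤ 2 * Q ∧ q.primeFactors.card ≤ 7 ∧
      ∀ r : ℕ, r.Prime → r ∣ q → T ^ (1 / 100 : ℝ) ≤ r) →
    (∀ w ∈ W, w.Prime ∧ P < w ∧ (w : ℝ) ≤ 2 * P) → (∀ w ∈ W, ∀ q ∈ QQ, Nat.Coprime w q) →
    (∀ l ∈ LL, l.Prime ∧ L < l ∧ (l : ℝ) ≤ 2 * L) →
    (∀ n, ‖a n‖ ≤ 1) → (∀ n, ‖al n‖ ≤ 1) → (∀ n, ‖b n‖ ≤ 1) → (∀ n, ‖lam n‖ ≤ 1) → (∀ n, ‖be n‖ ≤ 1) →
    ∀ D0 R0 : ℝ, ‖(⟨k, Q1, Q, P, L, M, D0, R0, 7, QQ, W, LL, b, lam, be⟩ : PD).S a al‖ ≤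
      T ^ (1 - 1 / 1000000 : ℝ) := by
  obtain ⟨L0, hL0⟩ := divP
  refine ⟨max 1 (Real.exp (max L0 (10 ^ 15))), le_max_left _ _, fun T hT k Q1 Q P Lp M QQ W LL ca al b lam be
    hk0 hk hQ10 hQ0 hP0 hP1 hU0 hU1 hLp1 hR0 hR1 hMX0 hMX1 hQQ hW hWQ hLL hca hal hb hlam hbe D0 R0 => ?_⟩
  have hT1 : 1 ≤ T := (le_max_left _ _).trans hT
  obtain ⟨L, rfl⟩ : ∃ L, T = Real.exp L := ⟨Real.log T, (Real.exp_log (by linarith)).symm⟩
  have hL : max L0 (10 ^ 15) ≤ L := Real.exp_le_exp.1 ((le_max_right _ _).trans hT)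
  have hL1 : L0 ≤ L := (le_max_left _ _).trans hL
  have hL2 : (10 : ℝ) ^ 15 ≤ L := (le_max_right _ _).trans hL
  simp only [← Real.exp_mul] at *
  have hP' : 0 < P := lt_of_lt_of_le (by positivity) hP0
  have hQ1' : 0 < Q1 := lt_of_lt_of_le (by positivity) hQ10
  have hQ' : 0 < Q := lt_of_lt_of_le (by positivity) hQ0
  have hLp' : 0 < Lp := by
    have h1 : 0 < Lp / Q1 := lt_of_lt_of_le (Real.exp_pos _) hU0
    rcases div_pos_iff.1 h1 with h2 | h2
    · exact h2.1
    · exact absurd h2.2 (not_lt.2 hQ1'.le)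
  have hM' : 0 < M := by
    have h1 : 0 < M * Lp := lt_of_lt_of_le (Real.exp_pos _) hMX0
    exact (pos_iff_pos_of_mul_pos h1).2 hLp'
  obtain ⟨a, rfl⟩ : ∃ a, Q1 = Real.exp a := ⟨Real.log Q1, (Real.exp_log hQ1').symm⟩
  obtain ⟨q, rfl⟩ : ∃ q, Q = Real.exp q := ⟨Real.log Q, (Real.exp_log hQ').symm⟩
  obtain ⟨p, rfl⟩ : ∃ p, P = Real.exp p := ⟨Real.log P, (Real.exp_log hP').symm⟩
  obtain ⟨l, rfl⟩ : ∃ l, Lp = Real.exp l := ⟨Real.log Lp, (Real.exp_log hLp').symm⟩
  obtain ⟨m, rfl⟩ : ∃ m, M = Real.exp m := ⟨Real.log M, (Real.exp_log hM').symm⟩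
  have hkpos : 1 ≤ |(k : ℝ)| := by
    have : 1 ≤ |k| := Int.one_le_abs hk0
    exact_mod_cast this
  obtain ⟨κ, hκ⟩ : ∃ κ, |(k : ℝ)| = Real.exp κ := ⟨Real.log |(k : ℝ)|, (Real.exp_log (by linarith)).symm⟩
  have hl2 : ∀ a : ℝ, Real.exp (a - 1) ≤ Real.exp a / 2 := by
    intro a
    rw [Real.exp_sub]
    have h3 : (2 : ℝ) ≤ Real.exp 1 := by
      have := Real.add_one_le_exp (1 : ℝ)
      linarith
    exact div_le_div_of_nonneg_left (Real.exp_pos _).le (by norm_num) h3
  have hl8 : ∀ a : ℝ, Real.exp (a - 7) ≤ Real.exp a / 8 := by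
    intro a
    rw [Real.exp_sub]
    have h3 : (8 : ℝ) ≤ Real.exp 7 := by
      have := Real.add_one_le_exp (7 : ℝ)
      linarith
    exact div_le_div_of_nonneg_left (Real.exp_pos _).le (by norm_num) h3
  have n2 : Real.exp (L * (1 / 2) - 7) ≤ Real.exp (a + (q + p)) := by
    rw [Real.exp_add a, Real.exp_add q, ← mul_assoc]
    exact (hl8 _).trans hR0
  have n3 : Real.exp (a + (q + p)) ≤ Real.exp (L * (1 / 2 + 1 / 1000000)) := by
    rw [Real.exp_add a, Real.exp_add q, ← mul_assoc]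
    exact hR1
  have n4 : Real.exp (L * (1 - 1 / 1000000)) ≤ Real.exp (m + l) := by
    rw [Real.exp_add]
    exact hMX0
  have n5 : Real.exp (m + l) ≤ Real.exp (L * (1 + 1 / 1000000)) := by
    rw [Real.exp_add]
    exact hMX1
  rw [← Real.exp_sub] at hU0 hU1
  have hN : Nm L a q p l m κ := by
    refine ⟨by norm_num at hL2 ⊢; linarith, ?_, ?_, ?_, ?_, ?_, ?_, ?_, ?_, ?_, ?_, ?_, ?_, ?_, ?_⟩
    · have h1 := Real.quadratic_le_exp_of_nonneg (show 0 ≤ L / 10000000 by positivity)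
      norm_num at hL2
      nlinarith
    · have := Real.exp_le_exp.1 ((hl2 _).trans hQ10)
      norm_num at hL2
      linarith
    · have := Real.exp_le_exp.1 ((hl2 _).trans hQ0)
      norm_num at hL2
      linarith
    · have := Real.exp_le_exp.1 ((hl2 _).trans hP0)
      norm_num at hL2
      linarith
    · have := Real.exp_le_exp.1 hP1
      linarith
    · have := Real.exp_le_exp.1 hU0
      linarith
    · have := Real.exp_le_exp.1 hU1
      linarith
    · have := Real.exp_le_exp.1 hLp1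
      linarith
    · have := Real.exp_le_exp.1 n2
      norm_num at hL2
      linarith
    · have := Real.exp_le_exp.1 n3
      linarith
    · have := Real.exp_le_exp.1 n4
      linarith
    · have := Real.exp_le_exp.1 n5
      linarith
    · rw [hκ] at hkpos
      exact Real.exp_le_exp.1 (Real.exp_zero.le.trans hkpos)
    · rw [hκ] at hk
      have := Real.exp_le_exp.1 hk
      linarith
  have hc := hN.hc
  have c1 := hN.a0
  have c2 := hN.q0
  have c3 := hN.p0
  have c4 := hN.p1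
  have c5 := hN.u0
  have c6 := hN.u1
  have c7 := hN.l1
  have c8 := hN.w0
  have c9 := hN.w1
  have c10 := hN.m0
  have c11 := hN.m1
  have c12 := hN.k0
  have c13 := hN.k1
  set pp : PD := ⟨k, Real.exp a, Real.exp q, Real.exp p, Real.exp l, Real.exp m, Real.exp (L / 100), Real.exp (L / 1000000), 7,
    QQ, W, LL, b, lam, be⟩ with hpp
  have hok : pp.Ok := by
    refine ⟨hk0, ?_, Real.one_le_exp (by linarith), Real.one_le_exp (by linarith), Real.one_le_exp (by linarith),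
      Real.one_le_exp (by linarith), ?_, ?_, ?_, Real.one_le_exp (by linarith), Real.exp_le_exp.2 (by linarith), ?_, ?_,
      hW, hWQ, hLL, hb, hlam, hbe⟩
    · show |(k : ℝ)| < Real.exp (L / 100)
      rw [hκ]
      exact Real.exp_lt_exp.2 (by linarith)
    · show 2 * Real.exp a ≤ Real.exp l
      refine cexp (hN.big (by norm_num)) ?_
      linarith
    · show Real.exp l ≤ Real.exp a * Real.exp q * Real.exp p
      rw [← Real.exp_add, ← Real.exp_add]
      exact Real.exp_le_exp.2 (by linarith)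
    · show Real.exp a * Real.exp q * Real.exp p ≤ Real.exp m
      rw [← Real.exp_add, ← Real.exp_add]
      exact Real.exp_le_exp.2 (by linarith)
    · exact hL0 L hL1 a q p l c7 c9 hc
    · intro z hz
      obtain ⟨z1, z2, z3, z4, z5⟩ := hQQ z hz
      refine ⟨z1, z2, z3, z4, fun s hs hs' => ?_⟩
      have := z5 s hs hs'
      show Real.exp (L / 100) ≤ s
      rw [show L / 100 = L * (1 / 100) by ring]
      exact this
  have hHdef : pp.H = ⌈4 * Real.exp a * (Real.exp q * Real.exp p) ^ 2 / Real.exp m⌉₊ := rfl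
  have hH : (pp.H : ℝ) ≤ Real.exp (l - a + 31 / 10000000 * L) := by
    have h1 := (Nat.ceil_lt_add_one (show 0 ≤ 4 * Real.exp a * (Real.exp q * Real.exp p) ^ 2 / Real.exp m by positivity)).le
    rw [hHdef]
    exact h1.trans hN.hH
  have hH0 : (0 : ℝ) ≤ pp.H := Nat.cast_nonneg _
  have hJdef : pp.J = ⌊Real.exp l / Real.exp a⌋₊ := rfl
  have hJ : (pp.J : ℝ) ≤ Real.exp (l - a) := by
    rw [hJdef, Real.exp_sub]
    exact Nat.floor_le (by positivity)
  have hJ0 : (0 : ℝ) ≤ pp.J := Nat.cast_nonneg _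
  have hHk : (pp.H : ℝ) * |(pp.k : ℝ)| ≤ pp.L := by
    show (pp.H : ℝ) * |(k : ℝ)| ≤ Real.exp l
    rw [hκ]
    calc (pp.H : ℝ) * Real.exp κ ≤ Real.exp (l - a + 31 / 10000000 * L) * Real.exp κ :=
          mul_le_mul_of_nonneg_right hH (Real.exp_pos _).le
      _ = Real.exp (l - a + 31 / 10000000 * L + κ) := (Real.exp_add _ _).symm
      _ ≤ Real.exp l := Real.exp_le_exp.2 (by linarith)
  have hsc : pp.scE ≤ 18 * Real.exp (p + (l + q + p)) + 36 * Real.exp (p + p + (l - a + 31 / 10000000 * L + (l - a) + κ + p)) +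
      131072 * Real.exp (L / 10000000 + (p + p) + 3 / 4 * (l + q + p + p) + 1 / 4 * (l - a + 31 / 10000000 * L + (l - a) + κ + p)) := by
    have h1 := hN.sc (pp.H : ℝ) (pp.J : ℝ) hH0 hJ0 hH hJ
    have h2 : pp.scE = 2 * Real.exp p * (8 * Real.exp l * Real.exp q * Real.exp p + 1) + 4 * Real.exp p ^ 2 *
        ((8 / Real.exp p + 1) * ((pp.H : ℝ) * (pp.J : ℝ) * |(k : ℝ)| * Real.exp p) +
        2 ^ (7 + 4) * (16 * Real.exp l * Real.exp q * Real.exp p ^ 2) ^ (3 / 4 : ℝ) *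
          ((pp.H : ℝ) * (pp.J : ℝ) * |(k : ℝ)| * Real.exp p) ^ (1 / 4 : ℝ) *
          (1 + Real.log (16 * Real.exp l * Real.exp q * Real.exp p ^ 2))) := rfl
    rw [h2, hκ]
    exact h1
  have s1 : ‖pp.S ca al‖ ^ 2 ≤ 10 * Real.exp a * Real.exp m * (pp.Tb + pp.Tc + ‖pp.Td‖ + ‖pp.Te‖) := t1 pp hok ca al hca hal
  have s2 : pp.Tb ≤ 2500 * Real.exp (L / 1000000) * (Real.exp m * Real.exp l +
      Real.exp m * Real.exp l ^ 2 / (Real.exp a * Real.exp (L / 100)) +
      Real.exp a * (Real.exp q * Real.exp p) ^ 2 * Real.exp l / Real.exp (L / 100) +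
      (Real.exp q * Real.exp p) ^ 2 * Real.exp l ^ 2 / Real.exp (L / 100) ^ 2) := t2 pp hok
  have s3 : pp.Tc ≤ 1100 * Real.exp (L / 1000000) * (Real.exp m * Real.exp l / Real.exp a +
      (Real.exp q * Real.exp p) ^ 2 * Real.exp l) := t3 pp hok
  have s4 : ‖pp.Td‖ ≤ 12000 * (pp.H : ℝ) * Real.exp m * Real.exp l *
      Real.sqrt (Real.exp (L / 1000000) * (1 / Real.exp p + 1 / Real.exp l)) := t4 pp hok hHk
  have s5 : ‖pp.Te‖ ≤ 16 * (pp.H : ℝ) * (pp.J : ℝ) * Real.exp l * Real.exp q *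
      (32 * Real.exp m / (Real.exp a * (Real.exp q * Real.exp p) ^ 2)) *
      Real.sqrt (48 * Real.exp l * Real.exp q * Real.exp p * Real.exp (L / 1000000) * pp.scE) := t5 pp hok hHk
  have hmm : (0 : ℝ) ≤ 10 * Real.exp a * Real.exp m := by positivity
  set B : ℝ := Real.exp ((2 - 2 / 1000000) * L) with hB
  have hAB : ‖pp.S ca al‖ ^ 2 ≤ B := by
    rw [mul_add, mul_add, mul_add] at s1
    have v2 := mul_le_mul_of_nonneg_left s2 hmm
    have v3 := mul_le_mul_of_nonneg_left s3 hmm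
    have v4 := mul_le_mul_of_nonneg_left s4 hmm
    have v5 := mul_le_mul_of_nonneg_left s5 hmm
    have w1 := hN.b1
    have w2 := hN.b2
    have w3 := hN.b3
    have w4 := hN.b4
    have w5 := hN.c1
    have w6 := hN.c2
    have w7 := hN.d1 (pp.H : ℝ) hH0 hH
    have w8 := hN.e1 (pp.H : ℝ) (pp.J : ℝ) pp.scE hH0 hJ0 hH hJ hsc
    rw [mul_add (1100 * Real.exp (L / 1000000)), mul_add (10 * Real.exp a * Real.exp m)] at v3
    rw [mul_add (2500 * Real.exp (L / 1000000)), mul_add (2500 * Real.exp (L / 1000000)), mul_add (2500 * Real.exp (L / 1000000)),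
      mul_add (10 * Real.exp a * Real.exp m), mul_add (10 * Real.exp a * Real.exp m), mul_add (10 * Real.exp a * Real.exp m)] at v2
    linarith
  have hgoal : ‖pp.S ca al‖ ≤ Real.exp (L * (1 - 1 / 1000000)) := by
    refine (pow_le_pow_iff_left₀ (norm_nonneg _) (by positivity) two_ne_zero).1 (hAB.trans ?_)
    have e2 : (Real.exp (L * (1 - 1 / 1000000))) ^ 2 = B := by
      rw [hB, ← Real.exp_nat_mul]
      congr 1
      push_cast
      ring
    rw [e2]
  exact hgoal

end Pool.Agent.Helper65.AP
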